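import Mathlib

set_option autoImplicit false
open MeasureTheory ProbabilityTheory Filter Topology Finset Polynomial
open scoped ENNReal

namespace Pool.Agent.Results.MP_28bf3c_nt.No

/-- The `n`-th base-`b` digit (`n ≥ 1`) after the point of the real number `y`. -/
noncomputable def digit (b : ℕ) (y : ℝ) (n : ℕ) : ℤ := ⌊(b : ℝ) ^ n * y⌋ % b

/-- `y` is normal in base `b`: every word `w` of length `k ≥ 1` over `{0,…,b-1}` starts at a
proportion of positions `1 ≤ n ≤ N` tending to `b^{-k}`. -/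
def Normal (b : ℕ) (y : ℝ) : Prop :=
  ∀ k : ℕ, 1 ≤ k → ∀ w : Fin k → Fin b,
    Tendsto (fun N : ℕ => (((Icc 1 N).filter fun n => ∀ i : Fin k,
      digit b y (n + i) = (w i : ℕ)).card : ℝ) / N) atTop (𝓝 (1 / (b : ℝ) ^ k))

/-- Absolutely normal: normal to each base `b ≥ 2`. -/
def AbsNormal (y : ℝ) : Prop := ∀ b : ℕ, 2 ≤ b → Normal b y

/-- The joint law of independent `ξ_n = ω n` with `Pr(ξ_n = 1) = p n` (`true` stands for `1`; the
coordinate `n = 0` is not used). -/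
noncomputable def law (p : ℕ → unitInterval) : Measure (ℕ → Bool) :=
  Measure.infinitePi fun n => bernoulliMeasure true false (p n)

/-- `X = ∑_{n ≥ 1} ξ_n 2^{-n}`. -/
noncomputable def X (ω : ℕ → Bool) : ℝ := ∑' n : ℕ, (if ω (n + 1) then 1 else 0) / (2 : ℝ) ^ (n + 1)

/-- `R_d(s)`: sum of `v_{i₁} ⋯ v_{i_d}` over `1 ≤ i₁ < ⋯ < i_d` with sum `s`, `v_n = p_n (1 - p_n)`. -/
noncomputable def R (p : ℕ → unitInterval) (d s : ℕ) : ℝ :=
  ∑ I ∈ ((Icc 1 s).powersetCard d).filter (fun I => ∑ i ∈ I, i = s),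
    ∏ i ∈ I, (p i : ℝ) * (1 - p i)

def A (n : ℕ) : Prop := ∀ k, 32 * 16 ^ k < n → n ≤ 256 * 16 ^ k → 16 ^ k ∣ n

open Classical in
noncomputable def pp (n : ℕ) : unitInterval := if A n then ⟨1 / 2, by norm_num, by norm_num⟩ else 0

lemma A_full {k i : ℕ} (h1 : 16 * 16 ^ k < i) (h2 : i ≤ 32 * 16 ^ k) : A i := by
  intro j h3 h4
  exfalso
  rcases lt_or_ge j k with h | h
  · have : 16 ^ (j + 1) ≤ 16 ^ k := Nat.pow_le_pow_right (by norm_num) h
    rw [pow_succ] at this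
    omega
  · have : 16 ^ k ≤ 16 ^ j := Nat.pow_le_pow_right (by norm_num) h
    omega

lemma A_mul {k z : ℕ} (h1 : 16 ^ (k + 1) ∣ z) (h2 : z < 96 * 16 ^ (k + 1)) : A z := by
  intro j h3 _
  refine (pow_dvd_pow 16 ?_).trans h1
  by_contra h
  have : 16 ^ (k + 1 + 1) ≤ 16 ^ j := Nat.pow_le_pow_right (by norm_num) (by omega)
  rw [pow_succ] at this
  omega

lemma R_ge {s : ℕ} (hs : 96 ≤ s) : (s : ℝ) / 32768 ≤ R pp 3 s := by
  obtain ⟨k, h1, h2⟩ : ∃ k, 96 * 16 ^ k ≤ s ∧ s < 96 * 16 ^ (k + 1) := by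
    refine ⟨Nat.log 16 (s / 96), ?_, ?_⟩
    · have := Nat.pow_log_le_self 16 (x := s / 96) (by omega)
      omega
    · have := Nat.lt_pow_succ_log_self (b := 16) (by norm_num) (s / 96)
      simp only [Nat.succ_eq_add_one] at this
      omega
  obtain ⟨z, z1, z2, z3⟩ : ∃ z, 16 ^ (k + 1) ∣ z ∧ z + 40 * 16 ^ k ≤ s ∧ s < z + 56 * 16 ^ k := by
    refine ⟨16 ^ (k + 1) * ((s - 40 * 16 ^ k) / 16 ^ (k + 1)), dvd_mul_right _ _, ?_, ?_⟩
    · have := Nat.mul_div_le (s - 40 * 16 ^ k) (16 ^ (k + 1))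
      omega
    · have := Nat.lt_mul_div_succ (s - 40 * 16 ^ k) (show 0 < 16 ^ (k + 1) by positivity)
      rw [mul_add, mul_one] at this
      have e : 16 ^ (k + 1) = 16 ^ k * 16 := pow_succ _ _
      omega
  have hz : A z := A_mul z1 (by omega)
  have hD : 0 < 16 ^ k := by positivity
  rw [pow_succ] at h2
  obtain ⟨D, hD'⟩ : ∃ D, D = 16 ^ k := ⟨_, rfl⟩
  have hA : ∀ i, 16 * D < i → i ≤ 32 * D → A i := fun i a b => A_full (hD' ▸ a) (hD' ▸ b)
  rw [← hD'] at h1 h2 z2 z3 hD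
  let f : ℕ → Finset ℕ := fun t => {(s - z) / 2 - t, s - z - (s - z) / 2 + t, z}
  have hinj : Set.InjOn f ↑(Icc 1 (3 * D)) := by
    intro t ht u hu h
    simp only [coe_Icc, Set.mem_Icc] at ht hu
    have a1 : (s - z) / 2 - t ∈ f u := h ▸ (by simp [f])
    simp only [f, mem_insert, mem_singleton] at a1
    omega
  have hv : ∀ i, A i → (pp i : ℝ) * (1 - pp i) = 1 / 4 := fun i hi => by
    simp only [pp, if_pos hi]; norm_num
  have hne : ∀ t ∈ Icc 1 (3 * D), (s - z) / 2 - t ∉ ({s - z - (s - z) / 2 + t, z} : Finset ℕ) ∧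
      s - z - (s - z) / 2 + t ∉ ({z} : Finset ℕ) := fun t ht => by
    simp only [mem_Icc] at ht
    simp only [mem_insert, mem_singleton]
    omega
  have hsub : image f (Icc 1 (3 * D)) ⊆
      ((Icc 1 s).powersetCard 3).filter (fun I => ∑ i ∈ I, i = s) := by
    intro I hI
    obtain ⟨t, ht, rfl⟩ := mem_image.1 hI
    obtain ⟨n1, n2⟩ := hne t ht
    simp only [mem_Icc] at ht
    simp only [mem_filter, mem_powersetCard, f]
    refine ⟨⟨?_, ?_⟩, ?_⟩
    · intro i hi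
      simp only [mem_insert, mem_singleton] at hi
      simp only [mem_Icc]
      omega
    · rw [card_insert_of_notMem n1, card_insert_of_notMem n2, card_singleton]
    · rw [sum_insert n1, sum_insert n2, sum_singleton]
      omega
  refine le_trans ?_ (sum_le_sum_of_subset_of_nonneg hsub fun I _ _ => prod_nonneg fun i _ =>
    mul_nonneg (pp i).2.1 (sub_nonneg.2 (pp i).2.2))
  rw [sum_image hinj, sum_congr rfl (g := fun _ => (1 / 64 : ℝ))]
  · simp only [sum_const, Nat.card_Icc, nsmul_eq_mul, add_tsub_cancel_right]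
    have : (s : ℝ) ≤ 96 * (D * 16) := by exact_mod_cast h2.le
    push_cast
    linarith
  · intro t ht
    obtain ⟨n1, n2⟩ := hne t ht
    simp only [mem_Icc] at ht
    simp only [f]
    rw [prod_insert n1, prod_insert n2, prod_singleton, hv _ hz, hv _ (hA _ (by omega) (by omega)),
      hv _ (hA _ (by omega) (by omega))]
    norm_num

lemma summ {c : ℝ} (hc : 0 < c) : Summable fun s : ℕ => (s : ℝ) * Real.exp (-c * R pp 3 s) := by
  refine Summable.of_norm_bounded_eventually_nat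
    (Real.summable_pow_mul_exp_neg_nat_mul 1 (r := c / 32768) (by positivity)) ?_
  filter_upwards [eventually_ge_atTop 96] with s hs
  rw [Real.norm_of_nonneg (by positivity), pow_one]
  have := mul_le_mul_of_nonneg_left (R_ge hs) hc.le
  refine mul_le_mul_of_nonneg_left (Real.exp_le_exp.2 ?_) (by positivity)
  linarith

def EE (k : ℕ) : Set (ℕ → Bool) := Set.pi (Ioc (32 * 16 ^ k) (256 * 16 ^ k)) fun _ => {false}

lemma EE_meas (k : ℕ) : MeasurableSet (EE k) :=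
  MeasurableSet.pi (countable_toSet _) fun _ _ => measurableSet_singleton _

lemma EE_ge (k : ℕ) : (2⁻¹ : ℝ≥0∞) ^ 256 ≤ law pp (EE k) := by
  rw [law, EE, Measure.infinitePi_pi _ fun _ _ => measurableSet_singleton _]
  calc (2⁻¹ : ℝ≥0∞) ^ 256
      ≤ 2⁻¹ ^ ((Ioc (32 * 16 ^ k) (256 * 16 ^ k)).filter fun n => 16 ^ k ∣ n).card := by
        refine pow_le_pow_of_le_one (by simp) (by simp) ?_
        calc _ ≤ ((Ioc 0 (256 * 16 ^ k)).filter fun n => 16 ^ k ∣ n).card :=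
              card_le_card (filter_subset_filter _ (Ioc_subset_Ioc_left (Nat.zero_le _)))
          _ = _ := by rw [Nat.Ioc_filter_dvd_card_eq_div, Nat.mul_div_cancel _ (by positivity)]
    _ = ∏ n ∈ Ioc (32 * 16 ^ k) (256 * 16 ^ k), if 16 ^ k ∣ n then 2⁻¹ else 1 := by
        rw [← prod_filter, prod_const]
    _ ≤ _ := by
        refine prod_le_prod' fun n hn => ?_
        rw [bernoulliMeasure_apply_of_notMem_of_mem _ (measurableSet_singleton _) (by simp) (by simp)]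
        by_cases hA : A n
        · rw [if_pos (hA k (mem_Ioc.1 hn).1 (mem_Ioc.1 hn).2)]
          have : unitInterval.toNNReal (unitInterval.symm (pp n)) = 2⁻¹ := by
            ext; simp [pp, hA]; norm_num
          rw [this]; simp
        · have : unitInterval.toNNReal (unitInterval.symm (pp n)) = 1 := by
            ext; simp [pp, hA]
          rw [this]
          split_ifs <;> simp

lemma X_split (ω : ℕ → Bool) (N : ℕ) : ∃ τ : ℝ, 0 ≤ τ ∧ τ ≤ 1 / 2 ^ N ∧
    X ω = ∑ n ∈ range N, (if ω (n + 1) then 1 else 0) / (2 : ℝ) ^ (n + 1) + τ := by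
  have hb : ∀ n, (0 : ℝ) ≤ (if ω (n + 1) then 1 else 0) / (2 : ℝ) ^ (n + 1) ∧
      (if ω (n + 1) then 1 else 0) / (2 : ℝ) ^ (n + 1) ≤ 1 / 2 / 2 ^ n := fun n => by
    split_ifs
    · exact ⟨by positivity, by rw [pow_succ', div_div]⟩
    · exact ⟨by simp, by rw [zero_div]; positivity⟩
  have hs : Summable fun n => (if ω (n + 1) then 1 else 0) / (2 : ℝ) ^ (n + 1) :=
    Summable.of_nonneg_of_le (fun n => (hb n).1) (fun n => (hb n).2) (summable_geometric_two' 1)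
  refine ⟨_, tsum_nonneg fun n => (hb (n + N)).1, ?_, (hs.sum_add_tsum_nat_add N).symm⟩
  rw [← tsum_geometric_two' (1 / 2 ^ N)]
  refine Summable.tsum_le_tsum (fun n => (hb (n + N)).2.trans_eq ?_)
    ((summable_nat_add_iff N).2 hs) (summable_geometric_two' _)
  rw [pow_add]
  field_simp

lemma dyadic (ω : ℕ → Bool) (M : ℕ) : ∃ m : ℕ,
    ∑ n ∈ range M, (if ω (n + 1) then 1 else 0) / (2 : ℝ) ^ (n + 1) = m / 2 ^ M := by
  induction M with
  | zero => exact ⟨0, by simp⟩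
  | succ M ih =>
    obtain ⟨m, hm⟩ := ih
    refine ⟨2 * m + if ω (M + 1) then 1 else 0, ?_⟩
    rw [sum_range_succ, hm, pow_succ]
    push_cast
    field_simp

lemma digit_zero {ω : ℕ → Bool} {M : ℕ} (h : ∀ n, M < n → n ≤ 8 * M → ω n = false) {n : ℕ}
    (h1 : 3 * M < n) (h2 : n + 2 ≤ 8 * M) : digit 2 (X ω ^ 3) n = 0 := by
  obtain ⟨τ, t0, t1, e⟩ := X_split ω (8 * M)
  obtain ⟨σ, -, s1, e'⟩ := X_split ω 0
  obtain ⟨m, hm⟩ := dyadic ω M
  have e2 : ∑ n ∈ range (8 * M), (if ω (n + 1) then 1 else 0) / (2 : ℝ) ^ (n + 1) = m / 2 ^ M := by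
    rw [← hm]
    refine (sum_subset (range_subset_range.2 (by omega)) fun i hi hi' => ?_).symm
    simp only [mem_range] at hi hi'
    simp [h (i + 1) (by omega) (by omega)]
  rw [e2] at e
  have x1 : X ω ≤ 1 := by simpa [e'] using s1
  have y0 : (0 : ℝ) ≤ m / 2 ^ M := by positivity
  obtain ⟨j, rfl⟩ : ∃ j, n = 3 * M + (j + 1) := ⟨n - 3 * M - 1, by omega⟩
  have hf : ⌊((2 : ℕ) : ℝ) ^ (3 * M + (j + 1)) * X ω ^ 3⌋ = 2 * (2 ^ j * m ^ 3) := by
    have e3 : ((2 : ℝ) * (2 ^ j * m ^ 3)) = 2 ^ (3 * M + (j + 1)) * (m / 2 ^ M) ^ 3 := by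
      rw [pow_add, pow_succ 2 j, mul_comm 3 M, pow_mul]
      field_simp
    have d0 : (m / 2 ^ M : ℝ) ^ 3 ≤ X ω ^ 3 := by gcongr; linarith
    have d1 : X ω ^ 3 ≤ (m / 2 ^ M : ℝ) ^ 3 + 3 * τ := by
      have : X ω ^ 3 - (m / 2 ^ M : ℝ) ^ 3 =
          τ * (X ω ^ 2 + X ω * (m / 2 ^ M) + (m / 2 ^ M) ^ 2) := by rw [e]; ring
      have h4 : X ω ^ 2 + X ω * (m / 2 ^ M) + (m / 2 ^ M) ^ 2 ≤ 3 := by nlinarith
      nlinarith
    have d2 : (2 : ℝ) ^ (3 * M + (j + 1)) * τ ≤ 1 / 4 := by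
      have : (2 : ℝ) ^ (3 * M + (j + 1) + 2) ≤ 2 ^ (8 * M) := pow_le_pow_right₀ (by norm_num) h2
      rw [le_div_iff₀ (by positivity)] at t1
      rw [pow_add _ _ 2] at this
      nlinarith
    have d3 : (0 : ℝ) < 2 ^ (3 * M + (j + 1)) := by positivity
    rw [Int.floor_eq_iff]
    push_cast
    rw [e3]
    constructor <;> nlinarith
  rw [digit, hf]
  simp

lemma not_normal {ω : ℕ → Bool} (h : ∀ m, ∃ k, m ≤ k ∧ ω ∈ EE k) : ¬ Normal 2 (X ω ^ 3) := by
  intro hN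
  have h1 := (hN 1 le_rfl fun _ => 0).eventually (gt_mem_nhds (show (1 : ℝ) / ((2 : ℕ) : ℝ) ^ 1 < 0.6 by
    norm_num))
  obtain ⟨N, hN⟩ := eventually_atTop.1 h1
  obtain ⟨k, hk, hω⟩ := h N
  have h2 : k < 16 ^ k := Nat.lt_pow_self (by norm_num)
  obtain ⟨D, hD⟩ : ∃ D, D = 16 ^ k := ⟨_, rfl⟩
  have h3 := hN (256 * D) (by omega)
  have h4 : ∀ n, 32 * D < n → n ≤ 8 * (32 * D) → ω n = false := fun n a b =>
    hω n (by simp only [coe_Ioc, Set.mem_Ioc]; omega)
  have h5 : Ioc (96 * D) (256 * D - 2) ⊆ (Icc 1 (256 * D)).filter fun n => ∀ i : Fin 1,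
      digit 2 (X ω ^ 3) (n + i) = (((fun _ => 0 : Fin 1 → Fin 2) i : ℕ) : ℤ) := by
    intro n hn
    simp only [mem_Ioc] at hn
    simp only [mem_filter, mem_Icc]
    refine ⟨by omega, fun i => ?_⟩
    simpa using digit_zero h4 (n := n) (by omega) (by omega)
  have h6 := card_le_card h5
  rw [Nat.card_Ioc] at h6
  have h7 : 158 * D ≤ 256 * D - 2 - 96 * D := by omega
  have h8 : (0 : ℝ) < D := by exact_mod_cast (by omega : 0 < D)
  rw [div_lt_iff₀ (by push_cast; positivity)] at h3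
  have h9 := (Nat.cast_le (α := ℝ)).2 (h7.trans h6)
  push_cast at h3 h9
  linarith

theorem result : ∃ (p : ℕ → unitInterval) (P : ℝ[X]), P.natDegree = 3 ∧
    (∀ c : ℝ, 0 < c → Summable fun s : ℕ => (s : ℝ) * Real.exp (-c * R p 3 s)) ∧
    ∃ E : Set (ℕ → Bool), MeasurableSet E ∧ 0 < law p E ∧
      ∀ ω ∈ E, ¬ AbsNormal (P.eval (X ω)) := by
  refine ⟨pp, Polynomial.X ^ 3, by simp, fun c hc => summ hc, ⋂ m, ⋃ k, ⋃ _ : m ≤ k, EE k,
    MeasurableSet.iInter fun m => MeasurableSet.iUnion fun k => MeasurableSet.iUnion fun _ =>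
      EE_meas k, ?_, fun ω hω h => ?_⟩
  · have : IsProbabilityMeasure (law pp) := by unfold law; infer_instance
    have ha : Antitone fun m => ⋃ k, ⋃ _ : m ≤ k, EE k := fun a b hab => Set.iUnion_mono fun k =>
      Set.iUnion_subset fun hk => Set.subset_iUnion_of_subset (hab.trans hk) le_rfl
    rw [ha.measure_iInter
      (fun m => (MeasurableSet.iUnion fun k => MeasurableSet.iUnion fun _ =>
        EE_meas k).nullMeasurableSet) ⟨0, measure_ne_top _ _⟩]
    refine lt_of_lt_of_le (ENNReal.pow_pos (a := 2⁻¹) (by simp) 256) (le_iInf fun m => ?_)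
    exact (EE_ge m).trans (measure_mono (Set.subset_iUnion₂_of_subset m le_rfl le_rfl))
  · refine not_normal (fun m => ?_) (by simpa using h 2 le_rfl)
    simpa using Set.mem_iInter.1 hω m

end Pool.Agent.Results.MP_28bf3c_nt.No
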